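import Mathlib

/-! Sums of `p - 1` over primes, from the bounds of Chebyshev. -/

set_option autoImplicit false

namespace Pool.Agent.U476.VA

open Finset

lemma log_320 : Real.log 320 ≤ 5.7763 := by
  have h1 : 3 * Real.log 320 = Real.log (320 ^ 3) := by
    rw [Real.log_pow]
    norm_num
  have h2 : Real.log (320 ^ 3) ≤ Real.log (2 ^ 25) :=
    Real.log_le_log (by norm_num) (by norm_num)
  rw [Real.log_pow (n := 25)] at h2
  have := Real.log_two_lt_d9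
  push_cast at h2
  linarith

lemma log_quarter {x : ℝ} (hx : (10 : ℝ) ^ 5 ≤ x) :
    Real.log (x + 1) + 2 * √x * Real.log x ≤ 9 / 100 * x := by
  have hx0 : 0 < x := lt_of_lt_of_le (by norm_num) hx
  obtain ⟨u, hu⟩ : ∃ u : ℝ, u = √x := ⟨_, rfl⟩
  have hu0 : 0 ≤ u := by rw [hu]; exact Real.sqrt_nonneg _
  have h2 : u ^ 2 = x := by rw [hu, Real.sq_sqrt hx0.le]
  have hu1 : 316 ≤ u := by
    by_contra h
    push Not at h
    have : u ^ 2 < 316 ^ 2 := pow_lt_pow_left₀ h hu0 (by norm_num)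
    linarith
  have hlu : Real.log u ≤ u / 320 + 4.7763 := by
    have h3 := Real.log_le_sub_one_of_pos (show 0 < u / 320 by positivity)
    rw [Real.log_div (by linarith) (by norm_num)] at h3
    have := log_320
    linarith
  have hl : Real.log x = 2 * Real.log u := by
    rw [← h2, Real.log_pow]
    norm_num
  have hl2 : Real.log (x + 1) ≤ 0.7 + Real.log x := by
    have h5 : Real.log (x + 1) ≤ Real.log (x * 2) :=
      Real.log_le_log (by linarith) (by nlinarith)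
    rw [Real.log_mul hx0.ne' (by norm_num)] at h5
    have := Real.log_two_lt_d9
    linarith
  rw [← hu, hl]
  rw [hl] at hl2
  have h6 : 2 * u * (2 * Real.log u) ≤ 2 * u * (2 * (u / 320 + 4.7763)) := by gcongr
  rw [← h2] at hl2 ⊢
  nlinarith

/-- The primes in `(y / 4, y]`. -/
def PP (y : ℕ) : Finset ℕ := Nat.primesLE y \ Nat.primesLE (y / 4)

lemma mem_PP {y p : ℕ} : p ∈ PP y ↔ p.Prime ∧ y / 4 < p ∧ p ≤ y := by
  rw [PP, mem_sdiff, Nat.mem_primesLE, Nat.mem_primesLE]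
  constructor
  · rintro ⟨⟨h1, h2⟩, h3⟩
    refine ⟨h2, ?_, h1⟩
    by_contra h
    exact h3 ⟨by omega, h2⟩
  · rintro ⟨h1, h2, h3⟩
    exact ⟨⟨h3, h1⟩, fun h => by omega⟩

theorem sum_PP {y : ℕ} (hy : 10 ^ 5 ≤ y) :
    (y : ℝ) ^ 2 ≤ 20 * Real.log y * ∑ p ∈ PP y, ((p - 1 : ℕ) : ℝ) := by
  have hyr : (10 : ℝ) ^ 5 ≤ y := by exact_mod_cast hy
  have hy0 : (0 : ℝ) < y := lt_of_lt_of_le (by norm_num) hyr
  have h1 := Chebyshev.theta_ge y
  have h2 := Chebyshev.theta_le_log4_mul_x (x := ((y / 4 : ℕ) : ℝ)) (by positivity)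
  rw [Chebyshev.theta_eq_sum_primesLE_log] at h1 h2
  have h3 := log_quarter hyr
  have hsub : Nat.primesLE (y / 4) ⊆ Nat.primesLE y := by
    intro p hp
    rw [Nat.mem_primesLE] at hp ⊢
    exact ⟨hp.1.trans (Nat.div_le_self _ _), hp.2⟩
  have h4 : ∑ p ∈ PP y, Real.log (p : ℝ) = ∑ p ∈ Nat.primesLE y, Real.log (p : ℝ) -
      ∑ p ∈ Nat.primesLE (y / 4), Real.log (p : ℝ) := by
    rw [PP, eq_sub_iff_add_eq, Finset.sum_sdiff hsub]
  have hz : ((y / 4 : ℕ) : ℝ) ≤ y / 4 := Nat.cast_div_le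
  have hlog4 : Real.log 4 = 2 * Real.log 2 := by
    rw [show (4 : ℝ) = 2 ^ 2 by norm_num, Real.log_pow]
    norm_num
  have hlog2 := Real.log_two_gt_d9
  have h5 : (y : ℝ) / 4 ≤ ∑ p ∈ PP y, Real.log (p : ℝ) := by
    rw [h4]
    have h6 : Real.log 4 * ((y / 4 : ℕ) : ℝ) ≤ Real.log 2 / 2 * y := by
      rw [hlog4]
      nlinarith
    nlinarith
  have hlogy : 0 < Real.log y := Real.log_pos (by linarith)
  have hz2 : (y : ℝ) / 5 ≤ ((y / 4 : ℕ) : ℝ) := by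
    have h6 : y ≤ 4 * (y / 4) + 3 := by omega
    have h7 : (y : ℝ) ≤ 4 * ((y / 4 : ℕ) : ℝ) + 3 := by exact_mod_cast h6
    linarith
  have h6 : ∀ p ∈ PP y, ((y / 4 : ℕ) : ℝ) * Real.log (p : ℝ) ≤
      Real.log y * ((p - 1 : ℕ) : ℝ) := by
    intro p hp
    rw [mem_PP] at hp
    have a1 : (y / 4 : ℕ) ≤ p - 1 := by omega
    have a2 : ((y / 4 : ℕ) : ℝ) ≤ ((p - 1 : ℕ) : ℝ) := by exact_mod_cast a1
    have a3 : Real.log (p : ℝ) ≤ Real.log y :=
      Real.log_le_log (by exact_mod_cast hp.1.pos) (by exact_mod_cast hp.2.2)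
    have a4 : 0 ≤ Real.log (p : ℝ) := Real.log_natCast_nonneg p
    rw [mul_comm (Real.log y)]
    exact mul_le_mul a2 a3 a4 (by positivity)
  have h7 := Finset.sum_le_sum h6
  rw [← Finset.mul_sum, ← Finset.mul_sum] at h7
  have h8 : (y : ℝ) / 5 * (y / 4) ≤ Real.log y * ∑ p ∈ PP y, ((p - 1 : ℕ) : ℝ) :=
    (mul_le_mul hz2 h5 (by positivity) (by positivity)).trans h7
  nlinarith

end Pool.Agent.U476.VA
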