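import Pool.Agent.U476.VA.Exp

/-! Bounds for the exponents of the coloured Jones polynomial. -/

set_option autoImplicit false

namespace Pool.Agent.U476.VA

open Finset Polynomial
open Pool.Agent.U476.NB (cj gbr gb gP gN ggen grep gtail)
open scoped LaurentPolynomial

/-- All exponents have absolute value at most `D`. -/
def Bd (D : ℕ) (F : ℤ[T;T⁻¹]) : Prop :=
  ∃ G : ℤ[X], G.natDegree ≤ 2 * D ∧ toLaurent G = F * LaurentPolynomial.T D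

lemma Bd.zero (D : ℕ) : Bd D 0 := ⟨0, by simp, by simp⟩

lemma Bd.mono {D E : ℕ} {F : ℤ[T;T⁻¹]} (h : Bd D F) (hDE : D ≤ E) : Bd E F := by
  obtain ⟨G, h1, h2⟩ := h
  refine ⟨G * X ^ (E - D), ?_, ?_⟩
  · refine natDegree_mul_le.trans ?_
    rw [natDegree_X_pow]
    omega
  · rw [map_mul, h2, toLaurent_X_pow, mul_assoc, ← LaurentPolynomial.T_add]
    congr 2
    push_cast [Nat.cast_sub hDE]
    ring

lemma Bd.one (D : ℕ) : Bd D 1 :=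
  Bd.mono (D := 0) ⟨1, by simp, by simp⟩ (Nat.zero_le _)

lemma Bd.add {D : ℕ} {F G : ℤ[T;T⁻¹]} (hF : Bd D F) (hG : Bd D G) : Bd D (F + G) := by
  obtain ⟨A, h1, h2⟩ := hF
  obtain ⟨B, h3, h4⟩ := hG
  exact ⟨A + B, (natDegree_add_le _ _).trans (max_le h1 h3), by rw [map_add, h2, h4, add_mul]⟩

lemma Bd.neg {D : ℕ} {F : ℤ[T;T⁻¹]} (hF : Bd D F) : Bd D (-F) := by
  obtain ⟨A, h1, h2⟩ := hF
  exact ⟨-A, by rwa [natDegree_neg], by rw [map_neg, h2, neg_mul]⟩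

lemma Bd.sub {D : ℕ} {F G : ℤ[T;T⁻¹]} (hF : Bd D F) (hG : Bd D G) : Bd D (F - G) := by
  rw [sub_eq_add_neg]
  exact hF.add hG.neg

lemma Bd.mul {D E : ℕ} {F G : ℤ[T;T⁻¹]} (hF : Bd D F) (hG : Bd E G) : Bd (D + E) (F * G) := by
  obtain ⟨A, h1, h2⟩ := hF
  obtain ⟨B, h3, h4⟩ := hG
  refine ⟨A * B, natDegree_mul_le.trans (by omega), ?_⟩
  rw [map_mul, h2, h4, Nat.cast_add, LaurentPolynomial.T_add]
  ring

lemma Bd.sum {ι : Type} (s : Finset ι) (f : ι → ℤ[T;T⁻¹]) {D : ℕ} (h : ∀ i ∈ s, Bd D (f i)) :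
    Bd D (∑ i ∈ s, f i) := by
  classical
  induction s using Finset.induction_on with
  | empty => exact Bd.zero D
  | insert a s ha ih =>
    rw [Finset.sum_insert ha]
    exact (h a (mem_insert_self _ _)).add (ih fun i hi => h i (mem_insert_of_mem hi))

lemma Bd.prod {ι : Type} (s : Finset ι) (f : ι → ℤ[T;T⁻¹]) {D : ℕ} (h : ∀ i ∈ s, Bd D (f i)) :
    Bd (s.card * D) (∏ i ∈ s, f i) := by
  classical
  induction s using Finset.induction_on with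
  | empty => simpa using Bd.one 0
  | insert a s ha ih =>
    rw [Finset.prod_insert ha, Finset.card_insert_of_notMem ha, add_mul, one_mul, add_comm]
    exact (h a (mem_insert_self _ _)).mul (ih fun i hi => h i (mem_insert_of_mem hi))

lemma tU_zpow (k : ℤ) : ((tU ^ k : (ℤ[T;T⁻¹])ˣ) : ℤ[T;T⁻¹]) = LaurentPolynomial.T k := by
  have h1 : ∀ n : ℕ, ((tU ^ n : (ℤ[T;T⁻¹])ˣ) : ℤ[T;T⁻¹]) = LaurentPolynomial.T n := by
    intro n
    rw [Units.val_pow_eq_pow_val]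
    change (LaurentPolynomial.T 1) ^ n = _
    rw [LaurentPolynomial.T_pow]
    simp
  have h2 : ∀ n : ℕ, ((tU⁻¹ ^ n : (ℤ[T;T⁻¹])ˣ) : ℤ[T;T⁻¹]) = LaurentPolynomial.T (-n) := by
    intro n
    rw [Units.val_pow_eq_pow_val]
    change (LaurentPolynomial.T (-1)) ^ n = _
    rw [LaurentPolynomial.T_pow]
    simp
  rcases Int.eq_nat_or_neg k with ⟨n, rfl | rfl⟩
  · rw [zpow_natCast, h1]
  · rw [zpow_neg, zpow_natCast, ← inv_pow, h2]

lemma Bd.T {k : ℤ} {D : ℕ} (h : |k| ≤ D) : Bd D ((tU ^ k : (ℤ[T;T⁻¹])ˣ) : ℤ[T;T⁻¹]) := by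
  rw [abs_le] at h
  refine ⟨X ^ (k + D).toNat, ?_, ?_⟩
  · rw [natDegree_X_pow]
    omega
  · rw [tU_zpow, toLaurent_X_pow, ← LaurentPolynomial.T_add]
    congr 1
    omega

lemma Bd.gbr {k : ℤ} {D : ℕ} (h : |k| ≤ D) : Bd D (gbr tU k) :=
  (Bd.T h).sub (Bd.T (by rwa [abs_neg]))

lemma Bd.gb : ∀ a b : ℕ, Bd (a * (a + b)) (gb tU a b)
  | a, 0 => by rw [Pool.Agent.U476.NB.gb]; exact Bd.one _
  | 0, b + 1 => by rw [Pool.Agent.U476.NB.gb]; exact Bd.zero _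
  | a + 1, b + 1 => by
      rw [Pool.Agent.U476.NB.gb]
      have h1 : Bd (b + 1) ((tU ^ ((b : ℤ) + 1) : (ℤ[T;T⁻¹])ˣ) : ℤ[T;T⁻¹]) :=
        Bd.T (by rw [abs_of_nonneg (by positivity)]; push_cast; exact le_rfl)
      have h2 : Bd (a + b) ((tU ^ (-((a : ℤ) - b)) : (ℤ[T;T⁻¹])ˣ) : ℤ[T;T⁻¹]) :=
        Bd.T (by rw [abs_le]; constructor <;> push_cast <;> linarith)
      refine ((h1.mul (Bd.gb a (b + 1))).mono ?_).add ((h2.mul (Bd.gb a b)).mono ?_)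
      · nlinarith
      · nlinarith

variable {N : ℕ}

lemma Bd.gP (p q : Fin N × Fin N) : Bd (10 * N ^ 2) (gP N tU p q) := by
  rw [Pool.Agent.U476.NB.gP]
  split_ifs with h
  · have p1 := p.1.2
    have p2 := p.2.2
    have q1 := q.1.2
    have q2 := q.2.2
    obtain ⟨P1, hP1⟩ : ∃ P1 : ℕ, P1 = (p.1 : ℕ) := ⟨_, rfl⟩
    obtain ⟨P2, hP2⟩ : ∃ P1 : ℕ, P1 = (p.2 : ℕ) := ⟨_, rfl⟩
    obtain ⟨Q1, hQ1⟩ : ∃ P1 : ℕ, P1 = (q.1 : ℕ) := ⟨_, rfl⟩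
    obtain ⟨Q2, hQ2⟩ : ∃ P1 : ℕ, P1 = (q.2 : ℕ) := ⟨_, rfl⟩
    rw [← hP1, ← hP2, ← hQ1, ← hQ2] at h
    rw [← hP1] at p1
    rw [← hP2] at p2
    rw [← hQ1] at q1
    rw [← hQ2] at q2
    rw [← hP1, ← hP2, ← hQ1, ← hQ2]
    obtain ⟨m, hm⟩ : ∃ m : ℕ, m = P1 - Q2 := ⟨_, rfl⟩
    rw [← hm]
    have hmN : m < N := by omega
    have e1 : Bd (4 * N ^ 2) ((tU ^ (-((N : ℤ) - 1) * (1 + (Q1 : ℤ) + (Q2 : ℤ)) +
        2 * (P1 : ℤ) * (P2 : ℤ)) : (ℤ[T;T⁻¹])ˣ) : ℤ[T;T⁻¹]) := by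
      refine Bd.T ?_
      have a1 : (P1 : ℤ) ≤ N - 1 := by omega
      have a2 : (P2 : ℤ) ≤ N - 1 := by omega
      have a3 : (Q1 : ℤ) ≤ N - 1 := by omega
      have a4 : (Q2 : ℤ) ≤ N - 1 := by omega
      have a5 : (0 : ℤ) ≤ P1 := by positivity
      have a6 : (0 : ℤ) ≤ P2 := by positivity
      have a7 : (0 : ℤ) ≤ Q1 := by positivity
      have a8 : (0 : ℤ) ≤ Q2 := by positivity
      push_cast
      have b1 : (P1 : ℤ) * P2 ≤ N ^ 2 := by nlinarith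
      have b2 : (0 : ℤ) ≤ (P1 : ℤ) * P2 := by positivity
      have b3 : ((N : ℤ) - 1) * (1 + Q1 + Q2) ≤ 2 * N ^ 2 := by nlinarith
      have b4 : 0 ≤ ((N : ℤ) - 1) * (1 + Q1 + Q2) := mul_nonneg (by linarith) (by positivity)
      rw [abs_le]
      constructor <;> nlinarith
    have e2 : Bd (N ^ 2) ((tU : ℤ[T;T⁻¹]) ^ (m * (m - 1) / 2)) := by
      have : (tU : ℤ[T;T⁻¹]) ^ (m * (m - 1) / 2) =
          ((tU ^ ((m * (m - 1) / 2 : ℕ) : ℤ) : (ℤ[T;T⁻¹])ˣ) : ℤ[T;T⁻¹]) := by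
        rw [zpow_natCast, Units.val_pow_eq_pow_val]
      rw [this]
      refine Bd.T ?_
      rw [abs_of_nonneg (by positivity)]
      have c1 : m * (m - 1) / 2 ≤ m * (m - 1) := Nat.div_le_self _ _
      have c2 : m * (m - 1) ≤ N ^ 2 := by
        rw [pow_two]
        exact Nat.mul_le_mul hmN.le (by omega)
      exact_mod_cast c1.trans c2
    have e3 : Bd (2 * N ^ 2) (Pool.Agent.U476.NB.gb tU P1 m) := by
      refine (Bd.gb P1 m).mono ?_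
      nlinarith
    have e4 : Bd (2 * N ^ 2) (∏ t ∈ range m, Pool.Agent.U476.NB.gbr tU ((N : ℤ) - (Q1 : ℤ) + t)) := by
      refine (Bd.prod (range m) _ (D := 2 * N) fun t ht => ?_).mono ?_
      · have ht' := mem_range.1 ht
        refine Bd.gbr ?_
        rw [abs_of_nonneg (by omega)]
        push_cast
        omega
      · rw [card_range]
        nlinarith
    refine (((e1.mul e2).mul e3).mul e4).mono ?_
    nlinarith
  · exact Bd.zero _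

lemma Bd.gN (p q : Fin N × Fin N) : Bd (10 * N ^ 2) (gN N tU p q) := by
  rw [Pool.Agent.U476.NB.gN]
  split_ifs with h
  · have p1 := p.1.2
    have p2 := p.2.2
    have q1 := q.1.2
    have q2 := q.2.2
    obtain ⟨P1, hP1⟩ : ∃ P1 : ℕ, P1 = (p.1 : ℕ) := ⟨_, rfl⟩
    obtain ⟨P2, hP2⟩ : ∃ P1 : ℕ, P1 = (p.2 : ℕ) := ⟨_, rfl⟩
    obtain ⟨Q1, hQ1⟩ : ∃ P1 : ℕ, P1 = (q.1 : ℕ) := ⟨_, rfl⟩
    obtain ⟨Q2, hQ2⟩ : ∃ P1 : ℕ, P1 = (q.2 : ℕ) := ⟨_, rfl⟩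
    rw [← hP1, ← hP2, ← hQ1, ← hQ2] at h
    rw [← hP1] at p1
    rw [← hP2] at p2
    rw [← hQ1] at q1
    rw [← hQ2] at q2
    rw [← hP2, ← hQ1, ← hQ2]
    obtain ⟨m, hm⟩ : ∃ m : ℕ, m = P2 - Q1 := ⟨_, rfl⟩
    rw [← hm]
    have hmN : m < N := by omega
    have e0 : Bd 0 ((-1 : ℤ[T;T⁻¹]) ^ m) := by
      rcases neg_one_pow_eq_or ℤ[T;T⁻¹] m with h | h
      · rw [h]; exact Bd.one 0
      · rw [h]; exact (Bd.one 0).neg
    have e1 : Bd (4 * N ^ 2) ((tU ^ (((N : ℤ) - 1) * (1 + (Q1 : ℤ) + (Q2 : ℤ)) -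
        2 * (Q1 : ℤ) * (Q2 : ℤ)) : (ℤ[T;T⁻¹])ˣ) : ℤ[T;T⁻¹]) := by
      refine Bd.T ?_
      have a3 : (Q1 : ℤ) ≤ N - 1 := by omega
      have a4 : (Q2 : ℤ) ≤ N - 1 := by omega
      have a7 : (0 : ℤ) ≤ Q1 := by positivity
      have a8 : (0 : ℤ) ≤ Q2 := by positivity
      push_cast
      have b1 : (Q1 : ℤ) * Q2 ≤ N ^ 2 := by nlinarith
      have b2 : (0 : ℤ) ≤ (Q1 : ℤ) * Q2 := by positivity
      have b3 : ((N : ℤ) - 1) * (1 + Q1 + Q2) ≤ 2 * N ^ 2 := by nlinarith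
      have b4 : 0 ≤ ((N : ℤ) - 1) * (1 + Q1 + Q2) := mul_nonneg (by linarith) (by positivity)
      rw [abs_le]
      constructor <;> nlinarith
    have e2 : Bd (N ^ 2) (((tU⁻¹ : (ℤ[T;T⁻¹])ˣ) : ℤ[T;T⁻¹]) ^ (m * (m - 1) / 2)) := by
      have : ((tU⁻¹ : (ℤ[T;T⁻¹])ˣ) : ℤ[T;T⁻¹]) ^ (m * (m - 1) / 2) =
          ((tU ^ (-((m * (m - 1) / 2 : ℕ) : ℤ)) : (ℤ[T;T⁻¹])ˣ) : ℤ[T;T⁻¹]) := by
        rw [zpow_neg, zpow_natCast, ← inv_pow, Units.val_pow_eq_pow_val]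
      rw [this]
      refine Bd.T ?_
      rw [abs_neg, abs_of_nonneg (by positivity)]
      have c1 : m * (m - 1) / 2 ≤ m * (m - 1) := Nat.div_le_self _ _
      have c2 : m * (m - 1) ≤ N ^ 2 := by
        rw [pow_two]
        exact Nat.mul_le_mul hmN.le (by omega)
      exact_mod_cast c1.trans c2
    have e3 : Bd (2 * N ^ 2) (Pool.Agent.U476.NB.gb tU P2 m) := by
      refine (Bd.gb P2 m).mono ?_
      nlinarith
    have e4 : Bd (2 * N ^ 2) (∏ t ∈ range m, Pool.Agent.U476.NB.gbr tU ((N : ℤ) - (Q2 : ℤ) + t)) := by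
      refine (Bd.prod (range m) _ (D := 2 * N) fun t ht => ?_).mono ?_
      · have ht' := mem_range.1 ht
        refine Bd.gbr ?_
        rw [abs_of_nonneg (by omega)]
        push_cast
        omega
      · rw [card_range]
        nlinarith
    refine ((((e0.mul e1).mul e2).mul e3).mul e4).mono ?_
    nlinarith
  · exact Bd.zero _

lemma Bd.ggen {ι : Type} [DecidableEq ι] (M : Matrix (ι × ι) (ι × ι) ℤ[T;T⁻¹]) {D : ℕ}
    (hM : ∀ p q, Bd D (M p q)) (n k : ℕ) (s t : Fin n → ι) : Bd D (ggen M n k s t) := by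
  rw [Pool.Agent.U476.NB.ggen]
  split_ifs
  · exact hM _ _
  · exact Bd.zero _
  · exact Bd.one _
  · exact Bd.zero _

lemma Bd.grep {ι : Type} [Fintype ι] [DecidableEq ι] (P Q : Matrix (ι × ι) (ι × ι) ℤ[T;T⁻¹])
    {D : ℕ} (hP : ∀ p q, Bd D (P p q)) (hQ : ∀ p q, Bd D (Q p q)) (n : ℕ)
    (w : List (ℕ × Bool)) : ∀ s t, Bd (w.length * D) (grep P Q n w s t) := by
  induction w with
  | nil =>
    intro s t
    rw [Pool.Agent.U476.NB.grep, List.map_nil, List.prod_nil, Matrix.one_apply]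
    split_ifs
    · exact Bd.one _
    · exact Bd.zero _
  | cons g w ih =>
    intro s t
    have h2 : Pool.Agent.U476.NB.grep P Q n (g :: w) =
        Pool.Agent.U476.NB.ggen (if g.2 then P else Q) n g.1 *
          Pool.Agent.U476.NB.grep P Q n w := by
      simp [Pool.Agent.U476.NB.grep]
    rw [h2, Matrix.mul_apply, List.length_cons, add_mul, one_mul, add_comm]
    refine Bd.sum _ _ fun u _ => Bd.mul ?_ (ih u t)
    apply Bd.ggen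
    split_ifs
    · exact hP
    · exact hQ

theorem Bd.cj (N n : ℕ) (w : List (ℕ × Bool)) : Bd (10 * N ^ 2 * (n + w.length)) (cj N n w tU) := by
  rw [Pool.Agent.U476.NB.cj]
  split_ifs with h
  · rw [Pool.Agent.U476.NB.gtail]
    refine Bd.sum _ _ fun s _ => ?_
    have h1 : Bd (n * N) (∏ x, ((tU ^ ((N : ℤ) - 1 - 2 * ((s x : Fin N) : ℕ)) : (ℤ[T;T⁻¹])ˣ) :
        ℤ[T;T⁻¹])) := by
      have := Bd.prod (Finset.univ : Finset (Fin n))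
        (fun x => ((tU ^ ((N : ℤ) - 1 - 2 * ((s x : Fin N) : ℕ)) : (ℤ[T;T⁻¹])ˣ) : ℤ[T;T⁻¹]))
        (D := N) fun x _ => Bd.T (by
          have := (s x).2
          rw [abs_le]
          constructor <;> omega)
      rwa [Finset.card_univ, Fintype.card_fin] at this
    refine (h1.mul (Bd.grep _ _ Bd.gP Bd.gN (n + 1) w _ _)).mono ?_
    have : n * N ≤ n * N ^ 2 := Nat.mul_le_mul_left _ (by nlinarith)
    nlinarith
  · exact Bd.zero _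

end Pool.Agent.U476.VA
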