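import Pool.Agent.U476.NB.Gen

/-! The expansion in powers of `h`, `v = exp (h / 2)`. -/

set_option autoImplicit false

namespace Pool.Agent.U476.VA

open Finset Polynomial
open Pool.Agent.U476.NB (cj map_cj)
open scoped LaurentPolynomial PowerSeries

/-- The variable `T` as a unit. -/
noncomputable def tU : (ℤ[T;T⁻¹])ˣ where
  val := LaurentPolynomial.T 1
  inv := LaurentPolynomial.T (-1)
  val_inv := by rw [← LaurentPolynomial.T_add]; simp
  inv_val := by rw [← LaurentPolynomial.T_add]; simp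

/-- `exp (h / 2)` as a unit. -/
noncomputable def eU : (ℚ⟦X⟧)ˣ where
  val := PowerSeries.rescale (1 / 2 : ℚ) (PowerSeries.exp ℚ)
  inv := PowerSeries.rescale (-(1 / 2) : ℚ) (PowerSeries.exp ℚ)
  val_inv := by
    rw [PowerSeries.exp_mul_exp_eq_exp_add]
    simp
  inv_val := by
    rw [PowerSeries.exp_mul_exp_eq_exp_add]
    simp

lemma eU_zero : PowerSeries.constantCoeff ((eU : (ℚ⟦X⟧)ˣ) : ℚ⟦X⟧) = 1 := by
  change PowerSeries.constantCoeff (PowerSeries.rescale (1 / 2 : ℚ) (PowerSeries.exp ℚ)) = 1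
  rw [← PowerSeries.coeff_zero_eq_constantCoeff_apply, PowerSeries.coeff_rescale]
  simp

lemma eU_sub : ∃ u : ℚ⟦X⟧, PowerSeries.constantCoeff u ≠ 0 ∧
    ((eU : (ℚ⟦X⟧)ˣ) : ℚ⟦X⟧) - 1 = PowerSeries.X * u := by
  have h1 : PowerSeries.X ∣ ((eU : (ℚ⟦X⟧)ˣ) : ℚ⟦X⟧) - 1 := by
    rw [PowerSeries.X_dvd_iff, map_sub, eU_zero]
    simp
  obtain ⟨u, hu⟩ := h1
  refine ⟨u, ?_, hu⟩
  have h2 := congrArg (PowerSeries.coeff 1) hu
  rw [map_sub] at h2
  have h3 : PowerSeries.coeff 1 ((eU : (ℚ⟦X⟧)ˣ) : ℚ⟦X⟧) = 1 / 2 := by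
    change PowerSeries.coeff 1 (PowerSeries.rescale (1 / 2 : ℚ) (PowerSeries.exp ℚ)) = 1 / 2
    rw [PowerSeries.coeff_rescale, PowerSeries.coeff_exp]
    simp
  have h4 : PowerSeries.coeff 1 (PowerSeries.X * u) = PowerSeries.constantCoeff u := by
    have := PowerSeries.coeff_succ_X_mul 0 u
    rw [zero_add] at this
    rw [this, PowerSeries.coeff_zero_eq_constantCoeff_apply]
  rw [h3, h4] at h2
  rw [← h2]
  simp [PowerSeries.coeff_one]

/-- The substitution `T = exp (h / 2)`. -/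
noncomputable def hh : ℤ[T;T⁻¹] →+* ℚ⟦X⟧ :=
  LaurentPolynomial.eval₂ (Int.castRingHom ℚ⟦X⟧) eU

lemma hh_cj (N n : ℕ) (w : List (ℕ × Bool)) : hh (cj N n w tU) = cj N n w eU := by
  rw [map_cj]
  congr 1
  ext1
  rw [Units.coe_map]
  change hh (LaurentPolynomial.T 1) = _
  simp [hh]

lemma hh_pol (G : ℤ[X]) : hh (Polynomial.toLaurent G) = aeval ((eU : (ℚ⟦X⟧)ˣ) : ℚ⟦X⟧) G := by
  rw [hh, LaurentPolynomial.eval₂_toLaurent, aeval_def]
  congr 1
  exact RingHom.ext_int _ _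

theorem dvd_of_exp (G : ℤ[X]) (M : ℕ)
    (h : PowerSeries.X ^ M ∣ aeval ((eU : (ℚ⟦X⟧)ˣ) : ℚ⟦X⟧) G) : (X - 1) ^ M ∣ G := by
  by_cases hG : G = 0
  · rw [hG]; exact dvd_zero _
  obtain ⟨H, hH, h1⟩ := exists_eq_pow_rootMultiplicity_mul_and_not_dvd G hG 1
  set k := rootMultiplicity 1 G with hk
  have hX : (X - C 1 : ℤ[X]) = X - 1 := by simp
  have hH1 : H.eval 1 ≠ 0 := by
    intro h0
    exact h1 (dvd_iff_isRoot.2 h0)
  have hkM : M ≤ k := by
    by_contra hlt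
    push Not at hlt
    obtain ⟨u, hu0, hu⟩ := eU_sub
    rw [hH, hX, map_mul, map_pow, map_sub, aeval_X, map_one, hu, mul_pow, mul_assoc] at h
    have h2 : PowerSeries.X ^ (k + 1) ∣ (PowerSeries.X : ℚ⟦X⟧) ^ k *
        (u ^ k * aeval ((eU : (ℚ⟦X⟧)ˣ) : ℚ⟦X⟧) H) := (pow_dvd_pow _ hlt).trans h
    rw [pow_succ] at h2
    have h3 := (mul_dvd_mul_iff_left (pow_ne_zero k PowerSeries.X_ne_zero)).1 h2
    rw [PowerSeries.X_dvd_iff, map_mul, map_pow] at h3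
    have h4 : PowerSeries.constantCoeff (aeval ((eU : (ℚ⟦X⟧)ˣ) : ℚ⟦X⟧) H) =
        ((H.eval 1 : ℤ) : ℚ) := by
      rw [aeval_def, hom_eval₂, eU_zero]
      have : (PowerSeries.constantCoeff (R := ℚ)).comp (algebraMap ℤ ℚ⟦X⟧) = Int.castRingHom ℚ :=
        RingHom.ext_int _ _
      rw [this, eval₂_at_one]
      simp
    rw [h4] at h3
    rcases mul_eq_zero.1 h3 with h5 | h5
    · exact pow_ne_zero k hu0 h5
    · exact hH1 (by exact_mod_cast h5)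
  rw [← hX]
  exact (pow_dvd_pow _ hkM).trans (pow_rootMultiplicity_dvd G 1)

end Pool.Agent.U476.VA
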