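import Pool.Agent.U476.VA.Main

/-! The choice of the primes. -/

set_option autoImplicit false

namespace Pool.Agent.U476.VA

open Finset Polynomial
open Pool.Agent.U476.NB (cj)
open scoped LaurentPolynomial PowerSeries

lemma log_two_pow {x : ℝ} (k : ℕ) (hx : 0 < x) (h : x ≤ 2 ^ k) : Real.log x ≤ k * Real.log 2 := by
  rw [← Real.log_pow]
  exact Real.log_le_log hx h

theorem final {N : ℕ} (hN : 2 ≤ N) (n n' : ℕ) (w w' : List (ℕ × Bool)) (L M : ℕ) (hL : 1 ≤ L)
    (hw : n + w.length ≤ L) (hw' : n' + w'.length ≤ L)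
    (hM : 2 * 10 ^ 4 * (L * N * Real.log (L * N) * √(L * Real.log (L * N))) + 3 * 10 ^ 7 * L ≤ M)
    (h : ∀ m < M, PowerSeries.coeff m (cj N n w eU) = PowerSeries.coeff m (cj N n' w' eU)) :
    cj N n w tU = cj N n' w' tU := by
  have hN2 : (2 : ℝ) ≤ N := by exact_mod_cast hN
  have hL1 : (1 : ℝ) ≤ L := by exact_mod_cast hL
  obtain ⟨A, hA⟩ : ∃ A : ℝ, A = Real.log (L * N) := ⟨_, rfl⟩
  rw [← hA] at hM
  have hLN : (2 : ℝ) ≤ L * N := by nlinarith
  have hlog2 := Real.log_two_gt_d9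
  have hlog2' := Real.log_two_lt_d9
  have hA2 : Real.log 2 ≤ A := by
    rw [hA]
    exact Real.log_le_log (by norm_num) hLN
  have hA0 : 0.69 < A := by linarith
  have hAx : A ≤ L * N := by
    rw [hA]
    have := Real.log_le_sub_one_of_pos (show (0 : ℝ) < L * N by linarith)
    linarith
  obtain ⟨t, ht⟩ : ∃ t : ℝ, t = √(L * A) := ⟨_, rfl⟩
  rw [← ht] at hM
  have ht0 : 0 ≤ t := by rw [ht]; exact Real.sqrt_nonneg _
  have ht2 : t ^ 2 = L * A := by rw [ht, Real.sq_sqrt (by positivity)]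
  have hth : 0.8 ≤ t := by
    by_contra hlt
    push Not at hlt
    have : t ^ 2 < 0.8 ^ 2 := pow_lt_pow_left₀ hlt ht0 (by norm_num)
    nlinarith
  obtain ⟨s, hs⟩ : ∃ s : ℝ, s = N * t := ⟨_, rfl⟩
  have hs1 : 1 ≤ s := by rw [hs]; nlinarith
  have hs2 : s ^ 2 = N ^ 2 * (L * A) := by rw [hs, mul_pow, ht2]
  have hlogs : 2 * Real.log s ≤ 3 * A := by
    have h1 : s ^ 2 ≤ (L * N : ℝ) ^ 3 := by
      rw [hs2]
      have h2 : (N : ℝ) ^ 2 * (L * A) ≤ N ^ 2 * (L * (L * N)) := by gcongr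
      refine h2.trans ?_
      have h3 : (L * N : ℝ) ^ 3 = N ^ 2 * (L * (L * N)) * L := by ring
      rw [h3]
      exact le_mul_of_one_le_right (by positivity) hL1
    have h2 := Real.log_le_log (by positivity) h1
    rw [Real.log_pow, Real.log_pow, ← hA] at h2
    push_cast at h2
    exact h2
  have hLs : (L : ℝ) * N * A * t = L * (s * A) := by rw [hs]; ring
  rw [hLs] at hM
  rcases le_total ((10 : ℝ) ^ 5) (100 * s) with hc | hc
  · obtain ⟨y, hy⟩ : ∃ y : ℕ, y = ⌈100 * s⌉₊ := ⟨_, rfl⟩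
    have hy1 : 100 * s ≤ y := by rw [hy]; exact Nat.le_ceil _
    have hy2 : (y : ℝ) ≤ 101 * s := by
      have := Nat.ceil_lt_add_one (show 0 ≤ 100 * s by positivity)
      rw [← hy] at this
      linarith
    have hy5 : 10 ^ 5 ≤ y := by exact_mod_cast hc.trans hy1
    have hyN : N ≤ y / 4 := by
      have h1 : (4 * N : ℝ) ≤ y := by
        refine le_trans ?_ hy1
        rw [hs]
        nlinarith
      have h2 : 4 * N ≤ y := by exact_mod_cast h1
      omega
    have hy0 : (0 : ℝ) < y := by linarith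
    have hlogy : Real.log y ≤ 8.5 * A := by
      have h1 : Real.log y ≤ Real.log ((2 : ℝ) ^ 7 * s) := by
        refine Real.log_le_log hy0 (hy2.trans ?_)
        refine mul_le_mul_of_nonneg_right ?_ (by linarith)
        norm_num
      rw [Real.log_mul (by positivity) (by positivity), Real.log_pow] at h1
      push_cast at h1
      linarith
    have hlogy0 : 0 ≤ Real.log y := Real.log_natCast_nonneg y
    refine same n n' w w' L M y hL hw hw' h hy5 hyN ?_ ?_
    · have h1 : (100 * s) ^ 2 ≤ (y : ℝ) ^ 2 := pow_le_pow_left₀ (by positivity) hy1 2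
      refine lt_of_lt_of_le ?_ h1
      rw [mul_pow, hs2]
      calc 400 * (N : ℝ) ^ 2 * L * Real.log y ≤ 400 * (N : ℝ) ^ 2 * L * (8.5 * A) := by gcongr
        _ = 3400 * (N ^ 2 * (L * A)) := by ring
        _ < 100 ^ 2 * (N ^ 2 * (L * A)) := by
            refine mul_lt_mul_of_pos_right ?_ (by positivity)
            norm_num
    · refine lt_of_lt_of_le ?_ hM
      have h3 : 22 * (L : ℝ) * (y * Real.log y) ≤ 22 * L * ((101 * s) * (8.5 * A)) := by gcongr
      have h4 : 22 * (L : ℝ) * ((101 * s) * (8.5 * A)) = 18887 * (L * (s * A)) := by ring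
      have h5 : 0 < (L : ℝ) * (s * A) := by positivity
      have h6 : (0 : ℝ) < L := by linarith
      linarith
  · have hl5 : Real.log ((10 ^ 5 : ℕ) : ℝ) ≤ 11.8 := by
      have h1 := log_two_pow (x := ((10 ^ 5 : ℕ) : ℝ)) 17 (by norm_num) (by norm_num)
      push_cast at h1 ⊢
      linarith
    have hss : s ^ 2 ≤ 10 ^ 6 := by
      have : s ≤ 10 ^ 3 := by linarith
      calc s ^ 2 ≤ (10 ^ 3) ^ 2 := pow_le_pow_left₀ (by linarith) this 2
        _ = 10 ^ 6 := by norm_num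
    have hNL : (N : ℝ) ^ 2 * L * 0.69 ≤ 10 ^ 6 := by
      refine le_trans ?_ hss
      rw [hs2, ← mul_assoc]
      exact mul_le_mul_of_nonneg_left hA0.le (by positivity)
    have hl50 : 0 ≤ Real.log ((10 ^ 5 : ℕ) : ℝ) := Real.log_natCast_nonneg _
    refine same n n' w w' L M (10 ^ 5) hL hw hw' h le_rfl ?_ ?_ ?_
    · have h1 : (N : ℝ) ≤ 1250 := by
        have : 0.8 * (N : ℝ) ≤ s := by rw [hs]; nlinarith
        linarith
      have h2 : N ≤ 1250 := by exact_mod_cast h1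
      omega
    · calc 400 * (N : ℝ) ^ 2 * L * Real.log ((10 ^ 5 : ℕ) : ℝ) ≤ 400 * (N : ℝ) ^ 2 * L * 11.8 := by
            gcongr
        _ < (((10 ^ 5 : ℕ) : ℝ)) ^ 2 := by
            push_cast
            nlinarith
    · refine lt_of_lt_of_le ?_ hM
      have h3 : 22 * (L : ℝ) * (((10 ^ 5 : ℕ) : ℝ) * Real.log ((10 ^ 5 : ℕ) : ℝ)) ≤
          22 * L * (((10 ^ 5 : ℕ) : ℝ) * 11.8) := by gcongr
      have h5 : 0 < (L : ℝ) * (s * A) := by positivity
      have h6 : (0 : ℝ) < L := by linarith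
      push_cast at h3 ⊢
      linarith

end Pool.Agent.U476.VA
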