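import Pool.Agent.U476.ZO.Pol

/-! Lower bounds for the norms of polynomials divisible by a power of `X - 1`. -/

set_option autoImplicit false

namespace Pool.Agent.U476.VA

open Finset Polynomial
open Pool.Agent.U476.ZO (NN NN_mul NN_pow NN_symm one_le_NN dvd_iff)

lemma NN_one_sub {p a : ℕ} (hp : p.Prime) (ha : 0 < a) :
    NN (p ^ a) (X - 1 : ℤ[X]) = p := by
  have : Fact p.Prime := ⟨hp⟩
  obtain ⟨b, rfl⟩ : ∃ b, a = b + 1 := ⟨a - 1, by omega⟩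
  have h1 : (X - 1 : ℤ[X]) = cyclotomic 1 ℤ := (cyclotomic_one ℤ).symm
  rw [h1, NN_symm (pow_pos hp.pos _) one_pos, NN, IsPrimitiveRoot.primitiveRoots_one, Finset.prod_singleton]
  have h2 : aeval (1 : ℂ) (cyclotomic (p ^ (b + 1)) ℤ) = (p : ℂ) := by
    rw [aeval_def, ← eval_map, map_cyclotomic, eval_one_cyclotomic_prime_pow]
  rw [h2, Complex.norm_natCast]

theorem low {p a : ℕ} (hp : p.Prime) (ha : 0 < a) (G : ℤ[X]) (M : ℕ) (hM : (X - 1) ^ M ∣ G)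
    {μ : ℂ} (hμ : μ ∈ primitiveRoots (p ^ a) ℂ) (h : aeval μ G ≠ 0) :
    (p : ℝ) ^ M ≤ ∏ ν ∈ primitiveRoots (p ^ a) ℂ, ‖aeval ν G‖ := by
  obtain ⟨H, rfl⟩ := hM
  have h0 : 0 < p ^ a := pow_pos hp.pos _
  have h1 : 1 ≤ NN (p ^ a) H := by
    refine one_le_NN h0 H fun hd => h ?_
    rw [map_mul, (dvd_iff h0 (isPrimitiveRoot_of_mem_primitiveRoots hμ) H).1 hd, mul_zero]
  have h2 : ∏ ν ∈ primitiveRoots (p ^ a) ℂ, ‖aeval ν ((X - 1 : ℤ[X]) ^ M * H)‖ =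
      NN (p ^ a) ((X - 1 : ℤ[X]) ^ M * H) := rfl
  rw [h2, NN_mul, NN_pow, NN_one_sub hp ha]
  exact le_mul_of_one_le_right (by positivity) h1

end Pool.Agent.U476.VA
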