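import Pool.Agent.U476.VA.Up1
import Pool.Agent.U476.VA.Low
import Pool.Agent.U476.VA.Deg
import Pool.Agent.U476.VA.Che

/-! The coloured Jones polynomials of links with the same Vassiliev invariants of low orders. -/

set_option autoImplicit false

namespace Pool.Agent.U476.VA

open Finset Polynomial
open Pool.Agent.U476.NB (cj map_cj cj_eq WW sum_WW)
open scoped LaurentPolynomial PowerSeries

/-- Evaluation. -/
noncomputable def ev (μ : ℂˣ) : ℤ[T;T⁻¹] →+* ℂ := LaurentPolynomial.eval₂ (Int.castRingHom ℂ) μ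

lemma ev_T (μ : ℂˣ) (k : ℤ) : ev μ (LaurentPolynomial.T k) = ((μ ^ k : ℂˣ) : ℂ) := by
  simp [ev]

lemma ev_cj (μ : ℂˣ) (N n : ℕ) (w : List (ℕ × Bool)) : ev μ (cj N n w tU) = cj N n w μ := by
  rw [map_cj]
  congr 1
  ext1
  rw [Units.coe_map]
  change ev μ (LaurentPolynomial.T 1) = _
  rw [ev_T, zpow_one]

lemma ev_pol (μ : ℂˣ) (G : ℤ[X]) : ev μ (toLaurent G) = aeval (μ : ℂ) G := by
  rw [ev, LaurentPolynomial.eval₂_toLaurent, aeval_def]
  congr 1

/-- The polynomial. -/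
theorem pol (N n n' : ℕ) (w w' : List (ℕ × Bool)) (L M : ℕ) (hw : n + w.length ≤ L)
    (hw' : n' + w'.length ≤ L)
    (h : ∀ m < M, PowerSeries.coeff m (cj N n w eU) = PowerSeries.coeff m (cj N n' w' eU)) :
    ∃ G : ℤ[X], G.natDegree ≤ 20 * N ^ 2 * L ∧ (X - 1) ^ M ∣ G ∧
      toLaurent G = (cj N n w tU - cj N n' w' tU) * LaurentPolynomial.T (10 * N ^ 2 * L : ℕ) ∧
      ∀ μ : ℂˣ, ‖(μ : ℂ)‖ = 1 → ‖aeval (μ : ℂ) G‖ = ‖cj N n w μ - cj N n' w' μ‖ := by
  have h1 : Bd (10 * N ^ 2 * L) (cj N n w tU) := (Bd.cj N n w).mono (Nat.mul_le_mul_left _ hw)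
  have h2 : Bd (10 * N ^ 2 * L) (cj N n' w' tU) := (Bd.cj N n' w').mono (Nat.mul_le_mul_left _ hw')
  obtain ⟨G, h3, h4⟩ := h1.sub h2
  refine ⟨G, h3.trans (by nlinarith), ?_, h4, ?_⟩
  · apply dvd_of_exp
    rw [← hh_pol, h4, map_mul, map_sub, hh_cj, hh_cj]
    refine Dvd.dvd.mul_right ?_ _
    rw [PowerSeries.X_pow_dvd_iff]
    intro m hm
    rw [map_sub, h m hm, sub_self]
  · intro μ hμ
    rw [← ev_pol, h4, map_mul, map_sub, ev_cj, ev_cj, ev_T, norm_mul, Units.val_zpow_eq_zpow_val,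
      norm_zpow, hμ, one_zpow, mul_one]

lemma neg_prim {r : ℕ} (hr : Odd r) {μ : ℂ} (hμ : IsPrimitiveRoot μ r) :
    IsPrimitiveRoot (-μ) (2 * r) := by
  have h1 : orderOf (-1 : ℂ) = 2 := orderOf_neg_one (R := ℂ) |>.trans (by simp)
  have h2 : orderOf μ = r := hμ.eq_orderOf.symm
  have h3 : orderOf ((-1) * μ) = orderOf (-1 : ℂ) * orderOf μ := by
    refine (Commute.all _ _).orderOf_mul_eq_mul_orderOf_of_coprime ?_
    rw [h1, h2]
    exact (Nat.coprime_two_left).2 hr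
  rw [h1, h2, neg_one_mul] at h3
  rw [← h3]
  exact IsPrimitiveRoot.orderOf _

lemma sq_prim {r : ℕ} (hr : Odd r) {μ : ℂ} (hμ : IsPrimitiveRoot μ r) :
    IsPrimitiveRoot (μ ^ 2) r :=
  hμ.pow_of_coprime 2 ((Nat.coprime_two_left).2 hr)

/-- The sums over the roots of odd order. -/
lemma sum_odd {r : ℕ} [NeZero r] (hr : Odd r) (hr2 : 2 ≤ r) :
    ∑ μ ∈ primitiveRoots r ℂ, WW r (μ ^ 2) ≤ 2 * r * Real.log r * (1 + Real.log r) := by
  refine le_trans ?_ (sum_WW r hr2)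
  have h1 : ∑ μ ∈ primitiveRoots r ℂ, WW r (μ ^ 2) =
      ∑ ν ∈ (primitiveRoots r ℂ).image (fun μ => -μ), WW r (ν ^ 2) := by
    rw [Finset.sum_image]
    · exact Finset.sum_congr rfl fun μ _ => by rw [neg_sq]
    · intro a _ b _ hab
      exact neg_injective hab
  rw [h1]
  refine Finset.sum_le_sum_of_subset_of_nonneg ?_ fun μ _ _ => ?_
  · intro ν hν
    obtain ⟨μ, hμ, rfl⟩ := Finset.mem_image.1 hν
    rw [mem_primitiveRoots (by omega)]
    exact neg_prim hr (isPrimitiveRoot_of_mem_primitiveRoots hμ)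
  · rw [WW]
    positivity

lemma cj_le {r N : ℕ} [NeZero r] (hr : 3 ≤ r) (hN0 : 0 < N) (hN : N ≤ r) (μ : ℂˣ)
    (hμ : IsPrimitiveRoot ((μ : ℂ) ^ 2) r) (n : ℕ) (w : List (ℕ × Bool)) (L : ℕ)
    (hw : n + w.length ≤ L) :
    ‖cj N n w μ‖ ≤ (r : ℝ) ^ L * Real.exp (5 * L * WW r ((μ : ℂ) ^ 2)) := by
  have hr2 : 2 ≤ r := by omega
  rw [cj_eq μ (fun k h0 hk => br_ne hμ hr2 k h0 (by omega))]
  refine (jones_le hr2 hN0 hN hμ n w).trans ?_
  have hW : 0 ≤ WW r ((μ : ℂ) ^ 2) := by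
    rw [WW]; positivity
  set W := WW r ((μ : ℂ) ^ 2) with hWd
  have hNr : (N : ℝ) ≤ r := by exact_mod_cast hN
  have hr1 : (1 : ℝ) ≤ r := by exact_mod_cast (show 1 ≤ r by omega)
  have e1 : (N : ℝ) ^ n * (N * Real.exp W ^ 5) ^ w.length =
      (N : ℝ) ^ (n + w.length) * Real.exp (5 * w.length * W) := by
    rw [mul_pow, pow_add, ← Real.exp_nat_mul, ← Real.exp_nat_mul]
    push_cast
    rw [show (w.length : ℝ) * (5 * W) = 5 * w.length * W by ring]
    ring
  rw [e1]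
  have hwL : (w.length : ℝ) ≤ L := by exact_mod_cast (show w.length ≤ L by omega)
  refine mul_le_mul ?_ ?_ (Real.exp_pos _).le (by positivity)
  · exact (pow_le_pow_left₀ (by positivity) hNr _).trans (pow_le_pow_right₀ hr1 hw)
  · rw [Real.exp_le_exp]
    exact mul_le_mul_of_nonneg_right (by linarith) hW

/-- The values at the roots of unity of prime power order `p ^ a`, whose squares have order `r`. -/
theorem values_aux {p a r N : ℕ} (hp : p.Prime) (ha : 0 < a) (hr3 : 3 ≤ r) (hN : N ≤ r)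
    (hsq : ∀ μ : ℂ, IsPrimitiveRoot μ (p ^ a) → IsPrimitiveRoot (μ ^ 2) r)
    (htot : (p ^ a).totient ≤ r) (hsum : ∀ [NeZero r],
      ∑ μ ∈ primitiveRoots (p ^ a) ℂ, WW r (μ ^ 2) ≤ 2 * r * Real.log r * (1 + Real.log r))
    (n n' : ℕ) (w w' : List (ℕ × Bool)) (L M : ℕ) (hL : 1 ≤ L) (hw : n + w.length ≤ L)
    (hw' : n' + w'.length ≤ L)
    (h : ∀ m < M, PowerSeries.coeff m (cj N n w eU) = PowerSeries.coeff m (cj N n' w' eU))
    (hM : 22 * L * (r * Real.log r ^ 2) < M * Real.log p)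
    (v : ℂˣ) (hv : IsPrimitiveRoot (v : ℂ) (p ^ a)) :
    cj N n w v = cj N n' w' v := by
  rcases Nat.eq_zero_or_pos N with rfl | hN0
  · rw [cj, cj, dif_neg (by omega), dif_neg (by omega)]
  have hs0 : 0 < p ^ a := pow_pos hp.pos a
  have : NeZero r := ⟨by omega⟩
  by_contra hne
  obtain ⟨G, _, hG2, _, hG4⟩ := pol N n n' w w' L M hw hw' h
  have hnorm : ∀ μ ∈ primitiveRoots (p ^ a) ℂ, ‖μ‖ = 1 := fun μ hμ =>
    (isPrimitiveRoot_of_mem_primitiveRoots hμ).norm'_eq_one hs0.ne'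
  have hv1 : v.val ∈ primitiveRoots (p ^ a) ℂ := (mem_primitiveRoots hs0).2 hv
  have h1 : aeval (v : ℂ) G ≠ 0 := by
    rw [← norm_ne_zero_iff, hG4 v (hnorm _ hv1), norm_ne_zero_iff, sub_ne_zero]
    exact hne
  have hlow := low hp ha G M hG2 (μ := (v : ℂ)) hv1 h1
  have hr1 : (1 : ℝ) ≤ r := by exact_mod_cast (show 1 ≤ r by omega)
  have hup : ∀ μ ∈ primitiveRoots (p ^ a) ℂ, ‖aeval μ G‖ ≤
      Real.exp ((L + 1) * Real.log r + 5 * L * WW r (μ ^ 2)) := by
    intro μ hμ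
    have hμp := isPrimitiveRoot_of_mem_primitiveRoots hμ
    have hμ0 : μ ≠ 0 := hμp.ne_zero hs0.ne'
    have e1 := hG4 (Units.mk0 μ hμ0) (hnorm μ hμ)
    rw [Units.val_mk0] at e1
    rw [e1]
    have hq : IsPrimitiveRoot (((Units.mk0 μ hμ0 : ℂˣ) : ℂ) ^ 2) r := hsq μ hμp
    have a1 := cj_le hr3 hN0 hN (Units.mk0 μ hμ0) hq n w L hw
    have a2 := cj_le hr3 hN0 hN (Units.mk0 μ hμ0) hq n' w' L hw'
    rw [Units.val_mk0] at a1 a2
    refine (norm_sub_le _ _).trans ((add_le_add a1 a2).trans ?_)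
    rw [Real.exp_add]
    have a3 : Real.exp ((L + 1) * Real.log r) = (r : ℝ) ^ (L + 1) := by
      rw [mul_comm, Real.exp_mul, Real.exp_log (by linarith)]
      exact_mod_cast rfl
    rw [a3, pow_succ (r : ℝ) L]
    have a4 : (2 : ℝ) ≤ r := by exact_mod_cast (show 2 ≤ r by omega)
    have a5 : 0 ≤ (r : ℝ) ^ L * Real.exp (5 * L * WW r (μ ^ 2)) := by positivity
    have a6 : (r : ℝ) ^ L * r * Real.exp (5 * L * WW r (μ ^ 2)) =
        r * ((r : ℝ) ^ L * Real.exp (5 * L * WW r (μ ^ 2))) := by ring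
    rw [a6]
    nlinarith
  have hprod : ∏ ν ∈ primitiveRoots (p ^ a) ℂ, ‖aeval ν G‖ ≤
      Real.exp (∑ ν ∈ primitiveRoots (p ^ a) ℂ, ((L + 1) * Real.log r + 5 * L * WW r (ν ^ 2))) := by
    rw [Real.exp_sum]
    exact Finset.prod_le_prod (fun _ _ => norm_nonneg _) hup
  have hp0 : (0 : ℝ) < p := by exact_mod_cast hp.pos
  have h2 := hlow.trans hprod
  rw [← Real.log_le_iff_le_exp (by positivity), Real.log_pow] at h2
  rw [Finset.sum_add_distrib, Finset.sum_const, ← Finset.mul_sum, nsmul_eq_mul,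
    Complex.card_primitiveRoots] at h2
  have h3 := hsum
  have hL1 : (1 : ℝ) ≤ L := by exact_mod_cast hL
  have hlog : 1 ≤ Real.log r := by
    rw [Real.le_log_iff_exp_le (by linarith)]
    have b1 := Real.exp_one_lt_d9
    have b2 : (3 : ℝ) ≤ r := by exact_mod_cast hr3
    linarith
  have h4 : (((p ^ a).totient : ℕ) : ℝ) ≤ r := by exact_mod_cast htot
  have h5 : (((p ^ a).totient : ℕ) : ℝ) * ((L + 1) * Real.log r) ≤
      2 * L * (r * Real.log r ^ 2) := by
    calc (((p ^ a).totient : ℕ) : ℝ) * ((L + 1) * Real.log r) ≤ r * ((L + 1) * Real.log r) :=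
          mul_le_mul_of_nonneg_right h4 (by positivity)
      _ ≤ r * ((2 * L) * (Real.log r * Real.log r)) := by
          refine mul_le_mul_of_nonneg_left ?_ (by linarith)
          refine mul_le_mul (by linarith) ?_ (by linarith) (by linarith)
          nlinarith
      _ = _ := by ring
  have h6 : 5 * (L : ℝ) * ∑ μ ∈ primitiveRoots (p ^ a) ℂ, WW r (μ ^ 2) ≤
      20 * L * (r * Real.log r ^ 2) := by
    calc 5 * (L : ℝ) * ∑ μ ∈ primitiveRoots (p ^ a) ℂ, WW r (μ ^ 2) ≤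
          5 * L * (2 * r * Real.log r * (1 + Real.log r)) :=
          mul_le_mul_of_nonneg_left h3 (by positivity)
      _ ≤ 5 * L * (2 * r * Real.log r * (2 * Real.log r)) := by
          refine mul_le_mul_of_nonneg_left ?_ (by positivity)
          refine mul_le_mul_of_nonneg_left (by linarith) ?_
          have : 0 ≤ (r : ℝ) := by linarith
          positivity
      _ = _ := by ring
  linarith

/-- The values at the roots of unity `v` of odd prime power order. -/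
theorem values {p a N : ℕ} (hp : p.Prime) (hp2 : p ≠ 2) (ha : 0 < a) (hN : N ≤ p ^ a)
    (n n' : ℕ) (w w' : List (ℕ × Bool)) (L M : ℕ) (hL : 1 ≤ L) (hw : n + w.length ≤ L)
    (hw' : n' + w'.length ≤ L)
    (h : ∀ m < M, PowerSeries.coeff m (cj N n w eU) = PowerSeries.coeff m (cj N n' w' eU))
    (hM : 22 * L * ((p ^ a : ℕ) * Real.log (p ^ a : ℕ) ^ 2) < M * Real.log p)
    (v : ℂˣ) (hv : IsPrimitiveRoot (v : ℂ) (p ^ a)) :
    cj N n w v = cj N n' w' v := by
  have hodd : Odd (p ^ a) := (hp.odd_of_ne_two hp2).pow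
  have hp3 : 3 ≤ p := by
    have := hp.two_le
    omega
  have hpr : p ≤ p ^ a := Nat.le_self_pow ha.ne' p
  exact values_aux hp ha (hp3.trans hpr) hN (fun μ hμ => sq_prim hodd hμ) (Nat.totient_le _)
    (fun {_} => sum_odd hodd (by omega)) n n' w w' L M hL hw hw' h hM v hv

/-- The values at the roots of unity `v` of order `2 ^ (a + 1)`. -/
theorem values2 {a N : ℕ} (ha : 2 ≤ a) (hN : N ≤ 2 ^ a)
    (n n' : ℕ) (w w' : List (ℕ × Bool)) (L M : ℕ) (hL : 1 ≤ L) (hw : n + w.length ≤ L)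
    (hw' : n' + w'.length ≤ L)
    (h : ∀ m < M, PowerSeries.coeff m (cj N n w eU) = PowerSeries.coeff m (cj N n' w' eU))
    (hM : 22 * L * ((2 ^ a : ℕ) * Real.log (2 ^ a : ℕ) ^ 2) < M * Real.log (2 : ℕ))
    (v : ℂˣ) (hv : IsPrimitiveRoot (v : ℂ) (2 ^ (a + 1))) :
    cj N n w v = cj N n' w' v := by
  have h4 : 4 ≤ 2 ^ a := by
    calc 4 = 2 ^ 2 := by norm_num
      _ ≤ 2 ^ a := Nat.pow_le_pow_right (by norm_num) ha
  have e : 2 ^ (a + 1) = 2 * 2 ^ a := by rw [pow_succ]; ring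
  refine values_aux Nat.prime_two (Nat.succ_pos a) (by omega) hN (fun μ hμ => ?_) ?_
    (fun {_} => ?_) n n' w w' L M hL hw hw' h hM v hv
  · rw [e] at hμ
    exact hμ.pow (by positivity) rfl
  · rw [e]
    exact Pool.Agent.U476.NB.totient_le_half _
  · rw [e]
    exact sum_WW _ (by omega)

/-- The polynomials. -/
theorem same {N : ℕ} (n n' : ℕ) (w w' : List (ℕ × Bool)) (L M y : ℕ) (hL : 1 ≤ L)
    (hw : n + w.length ≤ L) (hw' : n' + w'.length ≤ L)
    (h : ∀ m < M, PowerSeries.coeff m (cj N n w eU) = PowerSeries.coeff m (cj N n' w' eU))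
    (hy : 10 ^ 5 ≤ y) (hyN : N ≤ y / 4) (h1 : 400 * N ^ 2 * L * Real.log y < (y : ℝ) ^ 2)
    (h2 : 22 * L * (y * Real.log y) < M) :
    cj N n w tU = cj N n' w' tU := by
  obtain ⟨G, hG1, hG2, hG3, hG4⟩ := pol N n n' w w' L M hw hw' h
  by_contra hne
  have hG0 : G ≠ 0 := by
    intro h0
    rw [h0, map_zero] at hG3
    have h3 : (cj N n w tU - cj N n' w' tU) * LaurentPolynomial.T (10 * N ^ 2 * L : ℕ) *
        LaurentPolynomial.T (-((10 * N ^ 2 * L : ℕ) : ℤ)) = 0 := by rw [← hG3, zero_mul]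
    rw [mul_assoc, ← LaurentPolynomial.T_add, add_neg_cancel, LaurentPolynomial.T_zero,
      mul_one] at h3
    exact hne (sub_eq_zero.1 h3)
  have hyr : (1 : ℝ) < y := by
    have : (10 : ℝ) ^ 5 ≤ y := by exact_mod_cast hy
    linarith [show (1 : ℝ) < 10 ^ 5 by norm_num]
  have hlogy : 0 < Real.log y := Real.log_pos hyr
  have hroot : ∀ p ∈ PP y, ∀ μ ∈ primitiveRoots p ℂ, aeval μ G = 0 := by
    intro p hp μ hμ
    rw [mem_PP] at hp
    have hp3 : 3 ≤ p := by omega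
    have hμp := isPrimitiveRoot_of_mem_primitiveRoots hμ
    have hμ0 : μ ≠ 0 := hμp.ne_zero (by omega)
    have hnorm : ‖μ‖ = 1 := hμp.norm'_eq_one (by omega)
    have e1 := hG4 (Units.mk0 μ hμ0) hnorm
    rw [Units.val_mk0] at e1
    rw [← norm_eq_zero, e1, norm_eq_zero, sub_eq_zero]
    have hlogp : 0 < Real.log p := Real.log_pos (by exact_mod_cast (show 1 < p by omega))
    have hpy : (p : ℝ) ≤ y := by exact_mod_cast hp.2.2
    have hpy' : Real.log p ≤ Real.log y := Real.log_le_log (by positivity) hpy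
    refine values (p := p) (a := 1) hp.1 (by omega) one_pos (by rw [pow_one]; omega)
      n n' w w' L M hL hw hw' h ?_ _ (by rw [Units.val_mk0, pow_one]; exact hμp)
    rw [pow_one]
    have e2 : (p : ℝ) * Real.log p ≤ y * Real.log y :=
      mul_le_mul hpy hpy' hlogp.le (by positivity)
    have e3 : 22 * (L : ℝ) * (p * Real.log p) ≤ 22 * L * (y * Real.log y) :=
      mul_le_mul_of_nonneg_left e2 (by positivity)
    calc 22 * (L : ℝ) * (p * Real.log p ^ 2) = 22 * L * (p * Real.log p) * Real.log p := by ring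
      _ < M * Real.log p := mul_lt_mul_of_pos_right (e3.trans_lt h2) hlogp
  set Z : Finset ℂ := (PP y).biUnion fun p => primitiveRoots p ℂ with hZ
  have hmap : G.map (Int.castRingHom ℂ) ≠ 0 :=
    (Polynomial.map_ne_zero_iff (RingHom.injective_int _)).2 hG0
  have hsub : Z.val ⊆ (G.map (Int.castRingHom ℂ)).roots := by
    intro μ hμ
    rw [Finset.mem_val, hZ, Finset.mem_biUnion] at hμ
    obtain ⟨p, hp, hμ⟩ := hμ
    rw [mem_roots hmap, IsRoot.def, eval_map]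
    have := hroot p hp μ hμ
    rwa [aeval_def] at this
  have hcard := card_le_degree_of_subset_roots hsub
  rw [natDegree_map_eq_of_injective (RingHom.injective_int _)] at hcard
  have hZc : Z.card = ∑ p ∈ PP y, (p - 1) := by
    rw [hZ, Finset.card_biUnion]
    · refine Finset.sum_congr rfl fun p hp => ?_
      rw [mem_PP] at hp
      rw [Complex.card_primitiveRoots, Nat.totient_prime hp.1]
    · intro p _ q _ hpq
      change Disjoint (primitiveRoots p ℂ) (primitiveRoots q ℂ)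
      rw [Finset.disjoint_left]
      intro μ hμ1 hμ2
      exact hpq ((isPrimitiveRoot_of_mem_primitiveRoots hμ1).unique
        (isPrimitiveRoot_of_mem_primitiveRoots hμ2))
  rw [hZc] at hcard
  have h3 : ((∑ p ∈ PP y, (p - 1) : ℕ) : ℝ) ≤ 20 * N ^ 2 * L := by
    exact_mod_cast hcard.trans hG1
  rw [Nat.cast_sum] at h3
  have h4 := sum_PP hy
  have h5 : 20 * Real.log y * ∑ p ∈ PP y, ((p - 1 : ℕ) : ℝ) ≤
      20 * Real.log y * (20 * N ^ 2 * L) := mul_le_mul_of_nonneg_left h3 (by positivity)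
  linarith

end Pool.Agent.U476.VA
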