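import Pool.Agent.U476.NB.Up

/-! Upper bounds at `v` with `v ^ 2` a primitive `r`-th root of unity. -/

set_option autoImplicit false

namespace Pool.Agent.U476.VA

open Finset
open Pool.Agent.H550R3.Jones (cjones br brf crossP crossN gen rep)
open Pool.Agent.U476.NB (WW sudler brf_ne brf_add col_mul col_cross col_gen col_rep)


section prim

variable {r N : ℕ} {v : ℂ} (hv : IsPrimitiveRoot (v ^ 2) r) (hr : 2 ≤ r) (hN : N ≤ r)

include hv hr

lemma v_norm : ‖v‖ = 1 := Complex.norm_eq_one_of_pow_eq_one (n := 2 * r)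
  (by rw [pow_mul, hv.pow_eq_one]) (by omega)

lemma v_ne : v ≠ 0 := by
  intro h
  have := v_norm hv hr
  rw [h, norm_zero] at this
  norm_num at this

lemma q_prim : IsPrimitiveRoot (v ^ 2) r := hv

lemma br_norm (k : ℕ) : ‖br v k‖ = ‖1 - (v ^ 2) ^ k‖ := by
  have h0 := v_ne hv hr
  have h1 : br v k = -(v ^ (-(k : ℤ))) * (1 - (v ^ 2) ^ k) := by
    rw [Pool.Agent.H550R3.Jones.br, ← pow_mul, pow_mul', pow_two, zpow_neg, zpow_natCast]
    field_simp
    ring
  rw [h1, norm_mul, norm_neg, norm_zpow, v_norm hv hr, one_zpow, one_mul]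

lemma br_ne (k : ℕ) (hk : 0 < k) (hkr : k < r) : br v k ≠ 0 := by
  rw [← norm_ne_zero_iff, br_norm hv hr, norm_ne_zero_iff, sub_ne_zero]
  exact (hv.pow_ne_one_of_pos_of_lt (by omega) hkr).symm

lemma brf_pos (k : ℕ) (hk : k < r) : 0 < ‖brf v k‖ :=
  norm_pos_iff.2 (brf_ne (N := r) (br_ne hv hr) k hk)

lemma brf_log [NeZero r] (k : ℕ) (hk : k < r) :
    |Real.log ‖brf v k‖| ≤ WW r (v ^ 2) := by
  have h1 := sudler r hr (v ^ 2) (q_prim hv hr) k hk
  have h2 : Real.log ‖brf v k‖ = ∑ t ∈ range k, Real.log ‖1 - (v ^ 2) ^ (t + 1)‖ := by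
    rw [Pool.Agent.H550R3.Jones.brf, norm_prod, Real.log_prod]
    · refine Finset.sum_congr rfl fun t _ => ?_
      rw [← br_norm hv hr]
      push_cast
      rfl
    · intro t ht
      have ht' := mem_range.1 ht
      have := br_ne hv hr (t + 1) (by omega) (by omega)
      rw [norm_ne_zero_iff]
      exact_mod_cast this
  rw [h2]
  exact h1

lemma brf_le [NeZero r] (k : ℕ) (hk : k < r) :
    ‖brf v k‖ ≤ Real.exp (WW r (v ^ 2)) := by
  rw [← Real.log_le_iff_le_exp (brf_pos hv hr k hk)]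
  exact (le_abs_self _).trans (brf_log hv hr k hk)

lemma brf_inv_le [NeZero r] (k : ℕ) (hk : k < r) :
    ‖brf v k‖⁻¹ ≤ Real.exp (WW r (v ^ 2)) := by
  have h0 := brf_pos hv hr k hk
  rw [← Real.log_le_iff_le_exp (inv_pos.2 h0), Real.log_inv]
  exact (neg_le_abs _).trans (brf_log hv hr k hk)

include hN

lemma fac_le [NeZero r] (p1 q2 q1 m : ℕ) (h1 : p1 < N) (h2 : q2 < N) (h3 : q1 < N)
    (hm : m ≤ q1) :
    ‖brf v p1 / (brf v q2 * brf v m) * ∏ t ∈ range m, br v ((N : ℤ) - q1 + t)‖ ≤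
      Real.exp (WW r (v ^ 2)) ^ 5 := by
  have e1 : ∏ t ∈ range m, br v ((N : ℤ) - q1 + t) =
      brf v ((N - q1 - 1) + m) * (brf v (N - q1 - 1))⁻¹ := by
    have e2 : ∏ t ∈ range m, br v ((N : ℤ) - q1 + t) =
        ∏ t ∈ range m, br v (((N - q1 - 1 : ℕ) : ℤ) + 1 + t) := by
      refine Finset.prod_congr rfl fun t _ => ?_
      congr 1
      omega
    rw [e2, brf_add]
    have := brf_ne (N := r) (br_ne hv hr) (N - q1 - 1) (by omega)
    field_simp
  rw [e1, div_eq_mul_inv, mul_inv, norm_mul, norm_mul, norm_mul, norm_mul, norm_inv, norm_inv,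
    norm_inv]
  set E := Real.exp (WW r (v ^ 2)) with hE
  have hE0 : 0 ≤ E := (Real.exp_pos _).le
  have a1 := brf_le hv hr p1 (by omega)
  have a2 := brf_inv_le hv hr q2 (by omega)
  have a3 := brf_inv_le hv hr m (by omega)
  have a4 := brf_le hv hr ((N - q1 - 1) + m) (by omega)
  have a5 := brf_inv_le hv hr (N - q1 - 1) (by omega)
  rw [← hE] at a1 a2 a3 a4 a5
  calc ‖brf v p1‖ * (‖brf v q2‖⁻¹ * ‖brf v m‖⁻¹) *
        (‖brf v ((N - q1 - 1) + m)‖ * ‖brf v (N - q1 - 1)‖⁻¹)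
      ≤ E * (E * E) * (E * E) := by gcongr
    _ = E ^ 5 := by ring

lemma XP_le [NeZero r] (p q : Fin N × Fin N) :
    ‖crossP N v p q‖ ≤ if (p.1 : ℕ) + p.2 = q.1 + q.2 then Real.exp (WW r (v ^ 2)) ^ 5 else 0 := by
  rw [Pool.Agent.H550R3.Jones.crossP]
  by_cases hc : (p.1 : ℕ) + p.2 = q.1 + q.2
  · rw [if_pos hc]
    split_ifs with h
    · rw [mul_assoc, norm_mul, norm_mul, norm_zpow, norm_pow, v_norm hv hr, one_zpow, one_pow,
        one_mul, one_mul]
      exact fac_le hv hr hN _ _ _ _ p.1.2 q.2.2 q.1.2 (by omega)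
    · rw [norm_zero]; positivity
  · rw [if_neg hc, if_neg (fun h => hc h.1), norm_zero]

lemma XN_le [NeZero r] (p q : Fin N × Fin N) :
    ‖crossN N v p q‖ ≤ if (p.1 : ℕ) + p.2 = q.1 + q.2 then Real.exp (WW r (v ^ 2)) ^ 5 else 0 := by
  rw [Pool.Agent.H550R3.Jones.crossN]
  by_cases hc : (p.1 : ℕ) + p.2 = q.1 + q.2
  · rw [if_pos hc]
    split_ifs with h
    · rw [mul_assoc, norm_mul, norm_div, norm_mul, norm_zpow, norm_pow, norm_pow, norm_neg,
        norm_one, v_norm hv hr, one_zpow, one_pow, one_pow, one_mul, div_one, one_mul]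
      exact fac_le hv hr hN _ _ _ _ p.2.2 q.1.2 q.2.2 (by omega)
    · rw [norm_zero]; positivity
  · rw [if_neg hc, if_neg (fun h => hc h.1), norm_zero]

end prim

theorem jones_le {r N : ℕ} [NeZero r] (hr : 2 ≤ r) (hN0 : 0 < N) (hN : N ≤ r) {v : ℂ}
    (hv : IsPrimitiveRoot (v ^ 2) r) (n : ℕ)
    (w : List (ℕ × Bool)) : ‖cjones N n w v‖ ≤
      (N : ℝ) ^ n * (N * Real.exp (WW r (v ^ 2)) ^ 5) ^ w.length := by
  have hW : 0 ≤ WW r (v ^ 2) := by
    rw [WW]; positivity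
  have hE : 1 ≤ Real.exp (WW r (v ^ 2)) ^ 5 := one_le_pow₀ (Real.one_le_exp hW)
  have hR : 1 ≤ (N : ℝ) * Real.exp (WW r (v ^ 2)) ^ 5 := by
    have : (1 : ℝ) ≤ N := by exact_mod_cast hN0
    nlinarith
  have hP := col_cross (crossP N v) _ (by positivity) (XP_le hv hr hN)
  have hQ := col_cross (crossN N v) _ (by positivity) (XN_le hv hr hN)
  have hrep := col_rep (crossP N v) (crossN N v) _ hR hP hQ (n + 1) w
  rw [Pool.Agent.H550R3.Jones.cjones, dif_pos hN0, Pool.Agent.H550R3.Jones.tail]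
  refine (norm_sum_le _ _).trans ?_
  have h1 : ∀ s : Fin n → Fin N, ‖(∏ x, v ^ ((N : ℤ) - 1 - 2 * (s x : ℕ))) *
      rep (crossP N v) (crossN N v) (n + 1) w (Fin.cons ⟨0, hN0⟩ s) (Fin.cons ⟨0, hN0⟩ s)‖ ≤
      (N * Real.exp (WW r (v ^ 2)) ^ 5) ^ w.length := by
    intro s
    rw [norm_mul, norm_prod]
    have h2 : ∏ x, ‖v ^ ((N : ℤ) - 1 - 2 * (s x : ℕ))‖ = 1 :=
      Finset.prod_eq_one fun x _ => by rw [norm_zpow, v_norm hv hr, one_zpow]
    rw [h2, one_mul]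
    exact (Finset.single_le_sum (f := fun u => ‖rep (crossP N v) (crossN N v) (n + 1) w u
      (Fin.cons ⟨0, hN0⟩ s)‖) (fun _ _ => norm_nonneg _) (mem_univ _)).trans (hrep _)
  refine (Finset.sum_le_sum fun s _ => h1 s).trans ?_
  rw [Finset.sum_const, Finset.card_univ, Fintype.card_fun, Fintype.card_fin, Fintype.card_fin,
    nsmul_eq_mul]
  push_cast
  exact le_refl _

lemma log_jones_le {r N : ℕ} [NeZero r] (hr : 2 ≤ r) (hN0 : 0 < N) (hN : N ≤ r) {v : ℂ}
    (hv : IsPrimitiveRoot (v ^ 2) r) (n : ℕ) (w : List (ℕ × Bool)) (h : cjones N n w v ≠ 0) :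
    Real.log ‖cjones N n w v‖ ≤ (n + w.length) * Real.log r + 5 * w.length * WW r (v ^ 2) := by
  have h1 := jones_le hr hN0 hN hv n w
  have hN1 : (0 : ℝ) < N := by exact_mod_cast hN0
  have h2 := Real.log_le_log (norm_pos_iff.2 h) h1
  have hE : (0 : ℝ) < Real.exp (WW r (v ^ 2)) ^ 5 := by positivity
  rw [Real.log_mul (by positivity) (by positivity), Real.log_pow, Real.log_pow,
    Real.log_mul (by positivity) (by positivity), Real.log_pow, Real.log_exp] at h2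
  have h3 : Real.log N ≤ Real.log r := Real.log_le_log hN1 (by exact_mod_cast hN)
  have h4 : (0 : ℝ) ≤ (n : ℝ) := by positivity
  have h5 : (0 : ℝ) ≤ (w.length : ℝ) := by positivity
  push_cast at h2
  nlinarith [mul_le_mul_of_nonneg_left h3 h4, mul_le_mul_of_nonneg_left h3 h5]

end Pool.Agent.U476.VA
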